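import Mathlib

/-!
# MP_0bd9b3_al, Q1 holds: sums of matrix powers over finite (non-unital, noncommutative) rings
-/

set_option linter.unusedSectionVars false

namespace Pool.Agent.Results.MP_0bd9b3_al.MatrixPowerSums

open Finset

/-! ### Statement -/

section Defs

variable {ι : Type} [Fintype ι] {R : Type} [NonUnitalRing R]

/-- `pw A k = A^(k+1)`: powers in a ring without identity. -/
def pw (A : Matrix ι ι R) : ℕ → Matrix ι ι R
  | 0 => A
  | k + 1 => A * pw A k

end Defs

/-- `S_k^d(R) = ∑_{A ∈ M_d(R)} A^k` for `k ≥ 1`. -/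
noncomputable def S (R : Type) [NonUnitalRing R] [Fintype R] (d k : ℕ) :
    Matrix (Fin d) (Fin d) R := by
  classical
  exact ∑ A : Matrix (Fin d) (Fin d) R, pw A (k - 1)

/-- Conditions 1-3 of the problem. -/
def Conditions (R : Type) [NonUnitalRing R] [Fintype R] (d k : ℕ) : Prop :=
  d = 2 ∧
  (Fintype.card R % 4 = 2 ∧ 1 < k ∧ (k % 6 = 5 ∨ k % 6 = 0 ∨ k % 6 = 1)) ∧
  ∀ e : R, e ≠ 0 → e + e = 0 → e * e = e

/-! ### The orbit lemma -/

theorem orbit_sum {G α M : Type} [Group G] [Fintype G] [MulAction G α] [AddCommGroup M]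
    (F : α → M) (c : α → ℕ) :
    ∀ s : Finset α, (∀ a ∈ s, ∀ g : G, g • a ∈ s) → (∀ a ∈ s, ∀ g : G, c (g • a) = c a) →
      (∀ a ∈ s, Nat.card (MulAction.stabilizer G a) ∣ c a) →
      (∀ a ∈ s, ∑ g : G, F (g • a) = 0) → ∑ a ∈ s, c a • F a = 0 := by
  classical
  intro s
  induction s using Finset.strongInduction with
  | H s ih =>
  intro h1 h2 h3 h4
  rcases s.eq_empty_or_nonempty with rfl | ⟨a, ha⟩
  · simp
  let O : Finset α := Finset.univ.image (fun g : G => g • a)
  have hO : O ⊆ s := by
    intro b hb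
    obtain ⟨g, -, rfl⟩ := Finset.mem_image.mp hb
    exact h1 a ha g
  have haO : a ∈ O := Finset.mem_image.mpr ⟨1, Finset.mem_univ _, one_smul _ _⟩
  have hsum : ∑ b ∈ O, c b • F b = 0 := by
    have e1 : ∑ b ∈ O, c b • F b = c a • ∑ b ∈ O, F b := by
      rw [Finset.smul_sum]
      apply Finset.sum_congr rfl
      intro b hb
      obtain ⟨g, -, rfl⟩ := Finset.mem_image.mp hb
      rw [h2 a ha g]
    have e2 : ∑ g : G, F (g • a) = Nat.card (MulAction.stabilizer G a) • ∑ b ∈ O, F b := by
      rw [Finset.sum_comp, Finset.smul_sum]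
      apply Finset.sum_congr rfl
      intro b hb
      congr 1
      obtain ⟨h, -, rfl⟩ := Finset.mem_image.mp hb
      have e3 : Nat.card (MulAction.stabilizer G a)
          = (Finset.univ.filter (fun g : G => g • a = a)).card := by
        rw [Nat.card_eq_fintype_card]
        exact Fintype.card_subtype _
      rw [e3]
      apply Finset.card_nbij' (fun g => h⁻¹ * g) (fun g => h * g)
      · intro g hg
        simp only [Finset.coe_filter, Finset.mem_univ, true_and, Set.mem_ofPred_eq] at hg ⊢
        rw [mul_smul, hg, inv_smul_smul]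
      · intro g hg
        simp only [Finset.coe_filter, Finset.mem_univ, true_and, Set.mem_ofPred_eq] at hg ⊢
        rw [mul_smul, hg]
      · intro g _; simp
      · intro g _; simp
    obtain ⟨m, hm⟩ := h3 a ha
    rw [e1, hm, mul_comm, mul_smul, ← e2, h4 a ha, smul_zero]
  have hrest : ∑ b ∈ s \ O, c b • F b = 0 := by
    apply ih (s \ O)
    · refine ⟨Finset.sdiff_subset, fun hsub => ?_⟩
      exact (Finset.mem_sdiff.mp (hsub ha)).2 haO
    · intro b hb g
      rw [Finset.mem_sdiff] at hb ⊢
      refine ⟨h1 b hb.1 g, fun hg => hb.2 ?_⟩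
      obtain ⟨h, -, hh⟩ := Finset.mem_image.mp hg
      refine Finset.mem_image.mpr ⟨g⁻¹ * h, Finset.mem_univ _, ?_⟩
      show (g⁻¹ * h) • a = b
      rw [mul_smul, hh, inv_smul_smul]
    · intro b hb g
      exact h2 b (Finset.mem_sdiff.mp hb).1 g
    · intro b hb
      exact h3 b (Finset.mem_sdiff.mp hb).1
    · intro b hb
      exact h4 b (Finset.mem_sdiff.mp hb).1
  rw [← Finset.sum_sdiff hO, hrest, hsum, add_zero]

/-! ### Sums over finite abelian groups -/

/-- The sum of all elements. -/
noncomputable def σ (R : Type) [AddCommGroup R] [Fintype R] : R := ∑ x : R, x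

theorem sum_hom {X H : Type} [AddCommGroup X] [Fintype X] [AddCommGroup H] [Fintype H]
    (f : X →+ H) (hf : Function.Surjective f) : ∑ x : X, f x = Nat.card f.ker • σ H := by
  classical
  have h := Finset.sum_comp (s := (Finset.univ : Finset X)) (fun y : H => y) f
  rw [h, Finset.image_univ_of_surjective hf, σ, Finset.smul_sum]
  apply Finset.sum_congr rfl
  intro b _
  congr 1
  have e : Nat.card f.ker = (Finset.univ.filter (fun x : X => f x = 0)).card := by
    rw [Nat.card_eq_fintype_card]
    convert Fintype.card_subtype (fun x : X => f x = 0) using 1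
    exact Fintype.card_congr (Equiv.refl _)
  rw [e]
  exact AddMonoidHom.card_fiber_eq_of_mem_range f (Set.mem_range.mpr (hf b))
    (Set.mem_range.mpr (hf 0))

section Sigma

variable {R : Type} [AddCommGroup R] [Fintype R]

theorem pairs {z : R} (hz : z ≠ 0) (hz2 : z + z = 0) : ∀ E : Finset R,
    (∀ x ∈ E, x + z ∈ E) → (∀ x ∈ E, x + x = 0) → ∃ n : ℕ, E.card = 2 * n ∧ ∑ x ∈ E, x = n • z := by
  classical
  intro E
  induction E using Finset.strongInduction with
  | H E ih =>
  intro h1 h2
  rcases E.eq_empty_or_nonempty with rfl | ⟨a, ha⟩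
  · exact ⟨0, by simp, by simp⟩
  have hne : a + z ≠ a := by
    intro h
    exact hz (by simpa using h)
  have haz : a + z ∈ E.erase a := Finset.mem_erase.mpr ⟨hne, h1 a ha⟩
  obtain ⟨n, hn1, hn2⟩ := ih ((E.erase a).erase (a + z))
    (lt_of_lt_of_le (Finset.erase_ssubset haz) (Finset.erase_subset _ _))
    (by
      intro x hx
      rw [Finset.mem_erase, Finset.mem_erase] at hx ⊢
      refine ⟨fun h => hx.2.1 (by simpa using h), fun h => hx.1 ?_, h1 x hx.2.2⟩
      rw [← h, add_assoc, hz2, add_zero])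
    (by
      intro x hx
      exact h2 x (Finset.mem_of_mem_erase (Finset.mem_of_mem_erase hx)))
  refine ⟨n + 1, ?_, ?_⟩
  · have c1 := Finset.card_erase_add_one ha
    have c2 := Finset.card_erase_add_one haz
    omega
  · rw [← Finset.add_sum_erase E (fun x => x) ha, ← Finset.add_sum_erase _ (fun x => x) haz, hn2,
      add_smul, one_smul]
    have := h2 a ha
    calc a + (a + z + n • z) = (a + a) + (n • z + z) := by abel
      _ = _ := by rw [this, zero_add]

theorem sigma_eq_torsion [DecidableEq R] :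
    σ R = ∑ x ∈ Finset.univ.filter (fun x : R => x + x = 0), x := by
  rw [σ, ← Finset.sum_filter_add_sum_filter_not Finset.univ (fun x : R => x + x = 0)]
  have : ∑ x ∈ Finset.univ.filter (fun x : R => ¬ x + x = 0), x = 0 := by
    apply Finset.sum_involution (fun x _ => -x)
    · intro x _; simp
    · intro x hx _ h
      rw [Finset.mem_filter] at hx
      apply hx.2
      nth_rewrite 1 [← h]
      simp
    · intro x _; simp
    · intro x hx
      rw [Finset.mem_filter] at hx ⊢
      refine ⟨Finset.mem_univ _, fun h => hx.2 ?_⟩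
      have h' : -(x + x) = 0 := by rw [neg_add]; exact h
      exact neg_eq_zero.mp h'
  rw [this, add_zero]

theorem sigma_pairs {z : R} (hz : z ≠ 0) (hz2 : z + z = 0) :
    ∃ n : ℕ, 2 * n ∣ Fintype.card R ∧ σ R = n • z := by
  classical
  obtain ⟨n, h1, h2⟩ := pairs hz hz2 (Finset.univ.filter (fun x : R => x + x = 0))
    (by
      intro x hx
      rw [Finset.mem_filter] at hx ⊢
      refine ⟨Finset.mem_univ _, ?_⟩
      calc x + z + (x + z) = (x + x) + (z + z) := by abel
        _ = 0 := by rw [hx.2, hz2, add_zero])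
    (by
      intro x hx
      exact (Finset.mem_filter.mp hx).2)
  refine ⟨n, ?_, by rw [sigma_eq_torsion, h2]⟩
  let E : AddSubgroup R :=
    { carrier := {x | x + x = 0}
      add_mem' := by
        intro x y hx hy
        simp only [Set.mem_ofPred_eq] at hx hy ⊢
        calc x + y + (x + y) = (x + x) + (y + y) := by abel
          _ = 0 := by rw [hx, hy, add_zero]
      zero_mem' := by simp
      neg_mem' := by
        intro x hx
        simp only [Set.mem_ofPred_eq] at hx ⊢
        rw [← neg_add, hx, neg_zero] }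
  have hE : Nat.card E = (Finset.univ.filter (fun x : R => x + x = 0)).card := by
    rw [Nat.card_eq_fintype_card]
    exact Fintype.card_subtype _
  rw [← h1, ← hE, ← Nat.card_eq_fintype_card]
  exact AddSubgroup.card_addSubgroup_dvd_card E

theorem two_sigma : σ R + σ R = 0 := by
  classical
  rw [sigma_eq_torsion, ← Finset.sum_add_distrib]
  apply Finset.sum_eq_zero
  intro x hx
  exact (Finset.mem_filter.mp hx).2

theorem nsmul_torsion {z : R} (hz2 : z + z = 0) (n : ℕ) : n • z = if n % 2 = 1 then z else 0 := by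
  induction n with
  | zero => simp
  | succ n ih =>
    rw [succ_nsmul, ih]
    by_cases h : n % 2 = 1
    · rw [if_pos h, if_neg (by omega), hz2]
    · rw [if_neg h, if_pos (by omega), zero_add]

/-- if the sum of all elements is nonzero it is the unique element of order two -/
theorem unique_of_sigma_ne (h : σ R ≠ 0) {z : R} (hz2 : z + z = 0) : z = 0 ∨ z = σ R := by
  by_cases hz : z = 0
  · exact Or.inl hz
  right
  obtain ⟨n, _, hn⟩ := sigma_pairs hz hz2
  rw [nsmul_torsion hz2] at hn
  split_ifs at hn with h'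
  · exact hn.symm
  · exact absurd hn h

theorem sigma_of_card (h : Fintype.card R % 4 = 2) {z : R} (hz : z ≠ 0) (hz2 : z + z = 0) :
    σ R = z := by
  obtain ⟨n, ⟨m, hm⟩, hn⟩ := sigma_pairs hz hz2
  rw [hn, nsmul_torsion hz2, if_pos]
  by_contra hcon
  have h0 : n % 2 = 0 := by omega
  obtain ⟨k, rfl⟩ : ∃ k, n = 2 * k := ⟨n / 2, by omega⟩
  have : Fintype.card R = 4 * (k * m) := by rw [hm]; ring
  omega

theorem exists_torsion (h : 2 ∣ Fintype.card R) : ∃ z : R, z ≠ 0 ∧ z + z = 0 := by
  have : Fact (Nat.Prime 2) := ⟨Nat.prime_two⟩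
  obtain ⟨x, hx⟩ := exists_prime_addOrderOf_dvd_card 2 h
  refine ⟨x, ?_, ?_⟩
  · rintro rfl
    simp at hx
  · have := addOrderOf_nsmul_eq_zero x
    rw [hx, two_nsmul] at this
    exact this

end Sigma

/-! ### The group of unipotent matrices -/

section Group

variable {ι : Type} [Fintype ι] [DecidableEq ι] {R : Type} [NonUnitalRing R]

/-- a left ideal with square zero -/
structure SqZero (I : AddSubgroup R) : Prop where
  mul_left : ∀ r : R, ∀ i ∈ I, r * i ∈ I
  sq : ∀ i ∈ I, ∀ j ∈ I, i * j = 0

/-- matrices with zero column `o`, all rows but row `o` with entries in `I` -/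
def X (ι : Type) (o : ι) (I : AddSubgroup R) : AddSubgroup (Matrix ι ι R) where
  carrier := {x | (∀ a, x a o = 0) ∧ ∀ a, a ≠ o → ∀ b, x a b ∈ I}
  add_mem' := by
    intro x y hx hy
    exact ⟨fun a => by rw [Matrix.add_apply, hx.1, hy.1, add_zero],
      fun a ha b => by rw [Matrix.add_apply]; exact I.add_mem (hx.2 a ha b) (hy.2 a ha b)⟩
  zero_mem' := ⟨fun a => rfl, fun a _ b => I.zero_mem⟩
  neg_mem' := by
    intro x hx
    exact ⟨fun a => by rw [Matrix.neg_apply, hx.1, neg_zero],
      fun a ha b => by rw [Matrix.neg_apply]; exact I.neg_mem (hx.2 a ha b)⟩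

variable {o : ι} {I : AddSubgroup R}

theorem mul_apply_of_mem (hI : SqZero I) {x y : Matrix ι ι R} (hx : x ∈ X ι o I)
    (hy : y ∈ X ι o I) (a b : ι) (ha : a ≠ o) : (x * y) a b = 0 := by
  rw [Matrix.mul_apply]
  apply Finset.sum_eq_zero
  intro c _
  by_cases hc : c = o
  · subst hc; rw [hx.1, zero_mul]
  · exact hI.sq _ (hx.2 a ha c) _ (hy.2 c hc b)

theorem mul_mem_X (hI : SqZero I) {x y : Matrix ι ι R} (hx : x ∈ X ι o I) (hy : y ∈ X ι o I) :
    x * y ∈ X ι o I := by
  refine ⟨fun a => ?_, fun a ha b => ?_⟩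
  · rw [Matrix.mul_apply]
    apply Finset.sum_eq_zero
    intro c _
    rw [hy.1, mul_zero]
  · rw [mul_apply_of_mem hI hx hy a b ha]; exact I.zero_mem

theorem mul_mul_X (hI : SqZero I) {x y z : Matrix ι ι R} (hx : x ∈ X ι o I) (hy : y ∈ X ι o I)
    (hz : z ∈ X ι o I) : x * (y * z) = 0 := by
  ext a b
  rw [Matrix.mul_apply]
  apply Finset.sum_eq_zero
  intro c _
  by_cases hc : c = o
  · subst hc; rw [hx.1, zero_mul]
  · rw [mul_apply_of_mem hI hy hz c b hc, mul_zero]

/-- the group `1 + X` -/
structure XG (o : ι) (I : AddSubgroup R) (hI : SqZero I) where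
  /-- the matrix `x` of `1 + x` -/
  val : Matrix ι ι R
  mem : val ∈ X ι o I

variable {hI : SqZero I}

theorem XG.ext' {x y : XG o I hI} (h : x.val = y.val) : x = y := by
  cases x; cases y; simp only at h; subst h; rfl

instance : Group (XG o I hI) where
  mul x y := ⟨x.val + y.val + x.val * y.val,
    (X ι o I).add_mem ((X ι o I).add_mem x.mem y.mem) (mul_mem_X hI x.mem y.mem)⟩
  one := ⟨0, (X ι o I).zero_mem⟩
  inv x := ⟨-x.val + x.val * x.val,
    (X ι o I).add_mem ((X ι o I).neg_mem x.mem) (mul_mem_X hI x.mem x.mem)⟩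
  mul_assoc x y z := by
    apply XG.ext'
    show (x.val + y.val + x.val * y.val) + z.val + (x.val + y.val + x.val * y.val) * z.val
      = x.val + (y.val + z.val + y.val * z.val) + x.val * (y.val + z.val + y.val * z.val)
    simp only [mul_add, add_mul, mul_assoc]
    abel
  one_mul x := by
    apply XG.ext'
    show 0 + x.val + 0 * x.val = x.val
    simp
  mul_one x := by
    apply XG.ext'
    show x.val + 0 + x.val * 0 = x.val
    simp
  inv_mul_cancel x := by
    apply XG.ext'
    show (-x.val + x.val * x.val) + x.val + (-x.val + x.val * x.val) * x.val = 0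
    rw [add_mul, mul_assoc, mul_mul_X hI x.mem x.mem x.mem, neg_mul]
    abel

theorem XG.val_mul (x y : XG o I hI) : (x * y).val = x.val + y.val + x.val * y.val := rfl

theorem XG.val_one : (1 : XG o I hI).val = 0 := rfl

/-- the underlying type -/
def XG.equiv (o : ι) (I : AddSubgroup R) (hI : SqZero I) : XG o I hI ≃ X ι o I where
  toFun x := ⟨x.val, x.mem⟩
  invFun x := ⟨x.1, x.2⟩
  left_inv _ := rfl
  right_inv _ := rfl

/-- action on vectors -/
def act (x : XG o I hI) (v : ι → R) : ι → R := v + x.val.mulVec v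

theorem act_mul (x y : XG o I hI) (v : ι → R) : act (x * y) v = act x (act y v) := by
  unfold act
  rw [XG.val_mul, Matrix.add_mulVec, Matrix.add_mulVec, Matrix.mulVec_add,
    Matrix.mulVec_mulVec]
  abel

theorem act_one (v : ι → R) : act (1 : XG o I hI) v = v := by
  unfold act
  rw [XG.val_one, Matrix.zero_mulVec, add_zero]

instance : MulAction (XG o I hI) (ℕ → ι → R) where
  smul x s := fun k => act x (s k)
  one_smul s := by funext k; exact act_one (s k)
  mul_smul x y s := by funext k; exact act_mul x y (s k)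

theorem smul_apply (x : XG o I hI) (s : ℕ → ι → R) (k : ℕ) : (x • s) k = act x (s k) := rfl

/-- the sequence `A e_o, A² e_o, …` -/
def φ (o : ι) (A : Matrix ι ι R) (k : ℕ) : ι → R := fun a => pw A k a o

theorem φ_zero (A : Matrix ι ι R) (a : ι) : φ o A 0 a = A a o := rfl

theorem φ_succ (A : Matrix ι ι R) (k : ℕ) : φ o A (k + 1) = A.mulVec (φ o A k) := by
  funext a
  show (A * pw A k) a o = _
  rw [Matrix.mul_apply]
  rfl

theorem φ_eq_iff (A : Matrix ι ι R) (s : ℕ → ι → R) :
    φ o A = s ↔ (∀ a, A a o = s 0 a) ∧ ∀ k, A.mulVec (s k) = s (k + 1) := by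
  constructor
  · rintro rfl
    exact ⟨fun a => rfl, fun k => (φ_succ A k).symm⟩
  · rintro ⟨h0, h1⟩
    funext k
    induction k with
    | zero => funext a; exact h0 a
    | succ k ih => rw [φ_succ, ih, h1]

/-- conjugation by `1 + x` -/
def T (x : XG o I hI) (A : Matrix ι ι R) : Matrix ι ι R :=
  (A + A * x⁻¹.val) + x.val * (A + A * x⁻¹.val)

theorem inv_rel (x : XG o I hI) : x⁻¹.val + x.val + x⁻¹.val * x.val = 0 := by
  have := congrArg XG.val (inv_mul_cancel x)
  exact this

theorem inv_rel' (x : XG o I hI) : x.val + x⁻¹.val + x.val * x⁻¹.val = 0 := by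
  have := congrArg XG.val (mul_inv_cancel x)
  exact this

theorem T_inv_T (x : XG o I hI) (A : Matrix ι ι R) : T x⁻¹ (T x A) = A := by
  unfold T
  rw [inv_inv]
  have h1 := inv_rel x
  have h2 := inv_rel' x
  generalize x⁻¹.val = y at *
  generalize x.val = x at *
  -- `P = A (1 + y)`
  have hR : ∀ P : Matrix ι ι R, (P + P * y) + (P + P * y) * x = P := by
    intro P
    calc (P + P * y) + (P + P * y) * x = P + P * (y + x + y * x) := by
          simp only [mul_add, add_mul, mul_assoc]; abel
      _ = P := by rw [h1, mul_zero, add_zero]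
  have hL : ∀ P : Matrix ι ι R, (P + x * P) + y * (P + x * P) = P := by
    intro P
    calc (P + x * P) + y * (P + x * P) = P + (y + x + y * x) * P := by
          simp only [mul_add, add_mul, mul_assoc]; abel
      _ = P := by rw [h1, zero_mul, add_zero]
  set P := A + A * y with hP
  calc (P + x * P + (P + x * P) * x) + y * (P + x * P + (P + x * P) * x)
      = ((P + x * P) + y * (P + x * P)) + ((P + x * P) + y * (P + x * P)) * x := by
        simp only [mul_add, add_mul, mul_assoc]; abel
    _ = P + P * x := by rw [hL]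
    _ = A := by rw [hP, hR]

theorem φ_T (x : XG o I hI) (A : Matrix ι ι R) : φ o (T x A) = x • φ o A := by
  rw [φ_eq_iff]
  constructor
  · intro a
    rw [smul_apply, act, Pi.add_apply]
    have hcol : ∀ (P : Matrix ι ι R) (a : ι), (P + P * x⁻¹.val) a o = P a o := by
      intro P a
      rw [Matrix.add_apply, Matrix.mul_apply]
      have : ∑ j, P a j * x⁻¹.val j o = 0 := by
        apply Finset.sum_eq_zero
        intro j _
        rw [x⁻¹.mem.1, mul_zero]
      rw [this, add_zero]
    unfold T
    rw [Matrix.add_apply, hcol, Matrix.mul_apply, φ_zero]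
    congr 1
    unfold Matrix.mulVec dotProduct
    apply Finset.sum_congr rfl
    intro j _
    rw [hcol]
    rfl
  · intro k
    rw [smul_apply, smul_apply, φ_succ]
    generalize φ o A k = v
    have hw : act x v + x⁻¹.val.mulVec (act x v) = v := by
      have := act_mul x⁻¹ x v
      rw [inv_mul_cancel, act_one] at this
      exact this.symm
    unfold T
    have h1 : (A + A * x⁻¹.val).mulVec (act x v) = A.mulVec v := by
      rw [Matrix.add_mulVec, ← Matrix.mulVec_mulVec, ← Matrix.mulVec_add, hw]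
    rw [Matrix.add_mulVec, ← Matrix.mulVec_mulVec, h1]
    rfl

/-! ### The column sums -/

/-- annihilator of a sequence of vectors -/
def Ann (o : ι) (s : ℕ → ι → R) : AddSubgroup (Matrix ι ι R) where
  carrier := {B | (∀ a, B a o = 0) ∧ ∀ k, B.mulVec (s k) = 0}
  add_mem' := by
    intro x y hx hy
    exact ⟨fun a => by rw [Matrix.add_apply, hx.1, hy.1, add_zero],
      fun k => by rw [Matrix.add_mulVec, hx.2, hy.2, add_zero]⟩
  zero_mem' := ⟨fun a => rfl, fun k => Matrix.zero_mulVec _⟩
  neg_mem' := by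
    intro x hx
    exact ⟨fun a => by rw [Matrix.neg_apply, hx.1, neg_zero],
      fun k => by rw [Matrix.neg_mulVec, hx.2, neg_zero]⟩

variable [Fintype R]

noncomputable instance : Fintype (X ι o I) := Fintype.ofFinite _

noncomputable instance : Fintype (XG o I hI) := Fintype.ofEquiv _ (XG.equiv o I hI).symm

open Classical in
/-- number of matrices with given orbit sequence -/
noncomputable def cnt (o : ι) (s : ℕ → ι → R) : ℕ :=
  (Finset.univ.filter (fun A : Matrix ι ι R => φ o A = s)).card

theorem cnt_le (x : XG o I hI) (s : ℕ → ι → R) : cnt o s ≤ cnt o (x • s) := by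
  classical
  unfold cnt
  apply Finset.card_le_card_of_injOn (T x)
  · intro A hA
    simp only [Finset.coe_filter, Finset.mem_univ, true_and, Set.mem_ofPred_eq] at hA ⊢
    rw [φ_T, hA]
  · intro A _ A' _ h
    rw [← T_inv_T x A, ← T_inv_T x A', h]

theorem cnt_smul (x : XG o I hI) (s : ℕ → ι → R) : cnt o (x • s) = cnt o s := by
  apply le_antisymm
  · have := cnt_le x⁻¹ (x • s)
    rwa [inv_smul_smul] at this
  · exact cnt_le x s

theorem cnt_eq (A : Matrix ι ι R) : cnt o (φ o A) = Nat.card (Ann o (φ o A)) := by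
  classical
  unfold cnt
  rw [← Fintype.card_subtype, ← Nat.card_eq_fintype_card]
  apply Nat.card_congr
  refine ⟨fun A' => ⟨A'.1 - A, ?_, ?_⟩, fun B => ⟨A + B.1, ?_⟩, ?_, ?_⟩
  · intro a
    have h := (φ_eq_iff A'.1 _).mp A'.2
    rw [Matrix.sub_apply, h.1 a, φ_zero, sub_self]
  · intro k
    have h := (φ_eq_iff A'.1 _).mp A'.2
    rw [Matrix.sub_mulVec, h.2 k, φ_succ, sub_self]
  · rw [φ_eq_iff]
    constructor
    · intro a
      rw [Matrix.add_apply, B.2.1 a, add_zero, φ_zero]
    · intro k
      rw [Matrix.add_mulVec, B.2.2 k, add_zero, φ_succ]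
  · intro A'
    apply Subtype.ext
    simp
  · intro B
    apply Subtype.ext
    simp

theorem stab_dvd (A : Matrix ι ι R) :
    Nat.card (MulAction.stabilizer (XG o I hI) (φ o A)) ∣ cnt o (φ o A) := by
  rw [cnt_eq]
  have e : Nat.card (MulAction.stabilizer (XG o I hI) (φ o A))
      = Nat.card (X ι o I ⊓ Ann o (φ o A) : AddSubgroup (Matrix ι ι R)) := by
    apply Nat.card_congr
    refine ⟨fun g => ⟨g.1.val, g.1.mem, g.1.mem.1, ?_⟩, fun B => ⟨⟨B.1, B.2.1⟩, ?_⟩, ?_, ?_⟩
    · intro k
      have h := MulAction.mem_stabilizer_iff.mp g.2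
      have h2 := congrFun h k
      rw [smul_apply, act] at h2
      simpa using h2
    · rw [MulAction.mem_stabilizer_iff]
      funext k
      rw [smul_apply, act]
      have := B.2.2.2 k
      simp only at this ⊢
      rw [this, add_zero]
    · intro g
      rfl
    · intro B
      rfl
  rw [e]
  exact AddSubgroup.card_dvd_of_le inf_le_right

theorem col_sum (hI : SqZero I) (π : R →+ R) (k : ℕ)
    (h : ∀ v : ι → R, ∀ a, ∑ g : XG o I hI, π (act g v a) = 0) (a : ι) :
    ∑ A : Matrix ι ι R, π (pw A k a o) = 0 := by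
  classical
  have h1 := Finset.sum_comp (s := (Finset.univ : Finset (Matrix ι ι R)))
    (fun s : ℕ → ι → R => π (s k a)) (φ o)
  have h2 : ∑ A : Matrix ι ι R, π (pw A k a o)
      = ∑ s ∈ Finset.univ.image (φ o), cnt o s • π (s k a) := by
    refine Eq.trans h1 ?_
    apply Finset.sum_congr rfl
    intro s _
    rfl
  rw [h2]
  apply orbit_sum (G := XG o I hI) (fun s : ℕ → ι → R => π (s k a)) (cnt o)
  · intro s hs g
    obtain ⟨A, -, rfl⟩ := Finset.mem_image.mp hs
    exact Finset.mem_image.mpr ⟨T g A, Finset.mem_univ _, φ_T g A⟩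
  · intro s _ g
    exact cnt_smul g s
  · intro s hs
    obtain ⟨A, -, rfl⟩ := Finset.mem_image.mp hs
    exact stab_dvd A
  · intro s _
    exact h (s k) a

/-! ### The group sums -/

/-- the entry map -/
def entry (I : AddSubgroup R) (o a b : ι) : X ι o I →+ R where
  toFun x := x.1 a b
  map_zero' := rfl
  map_add' _ _ := rfl

theorem single_mem {b : ι} (hb : b ≠ o) (r : R) : Matrix.single o b r ∈ X ι o I := by
  refine ⟨fun a => ?_, fun a ha c => ?_⟩
  · rw [Matrix.single_apply, if_neg (by rintro ⟨-, h⟩; exact hb h)]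
  · rw [Matrix.single_apply, if_neg (by rintro ⟨h, -⟩; exact ha h.symm)]
    exact I.zero_mem

theorem single_mem' {a b : ι} (hb : b ≠ o) {i : R} (hi : i ∈ I) :
    Matrix.single a b i ∈ X ι o I := by
  refine ⟨fun c => ?_, fun c _ d => ?_⟩
  · rw [Matrix.single_apply, if_neg (by rintro ⟨-, h⟩; exact hb h)]
  · rw [Matrix.single_apply]
    split_ifs
    · exact hi
    · exact I.zero_mem

theorem entry_surj {b : ι} (hb : b ≠ o) : Function.Surjective (entry I o o b) := by
  intro r
  exact ⟨⟨Matrix.single o b r, single_mem hb r⟩, by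
    show Matrix.single o b r o b = r
    rw [Matrix.single_apply, if_pos ⟨rfl, rfl⟩]⟩

/-- `|R|` kills everything, and so does `|X|` -/
theorem card_X_smul {b : ι} (hb : b ≠ o) (r : R) : Nat.card (X ι o I) • r = 0 := by
  obtain ⟨m, hm⟩ := AddSubgroup.card_dvd_of_surjective (entry I o o b) (entry_surj hb)
  rw [hm, mul_comm, mul_smul, Nat.card_eq_fintype_card, card_nsmul_eq_zero, smul_zero]

/-- a subgroup of `X` surjecting onto `R` has order killing `R` -/
theorem card_ker_smul {a b c : ι} (hc : c ≠ o) (hab : (a, b) ≠ (o, c)) (r : R) :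
    Nat.card (entry I o a b).ker • r = 0 := by
  have hs : Function.Surjective ((entry I o o c).comp (entry I o a b).ker.subtype) := by
    intro r
    refine ⟨⟨⟨Matrix.single o c r, single_mem hc r⟩, ?_⟩, ?_⟩
    · show Matrix.single o c r a b = 0
      rw [Matrix.single_apply, if_neg]
      rintro ⟨h1, h2⟩
      exact hab (by rw [← h1, ← h2])
    · show Matrix.single o c r o c = r
      rw [Matrix.single_apply, if_pos ⟨rfl, rfl⟩]
  obtain ⟨m, hm⟩ := AddSubgroup.card_dvd_of_surjective _ hs
  rw [hm, mul_comm, mul_smul, Nat.card_eq_fintype_card, card_nsmul_eq_zero, smul_zero]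

theorem sum_entry_zero_col (a : ι) : ∑ x : X ι o I, x.1 a o = 0 := by
  apply Finset.sum_eq_zero
  intro x _
  exact x.2.1 a

theorem sum_entry_inner {a b : ι} (ha : a ≠ o) (hb : b ≠ o) : ∑ x : X ι o I, x.1 a b = 0 := by
  classical
  let f : X ι o I →+ I := 
    { toFun := fun x => ⟨x.1 a b, x.2.2 a ha b⟩
      map_zero' := rfl
      map_add' := fun _ _ => rfl }
  have hf : Function.Surjective f := by
    intro i
    refine ⟨⟨Matrix.single a b i.1, single_mem' hb i.2⟩, ?_⟩
    apply Subtype.ext
    show Matrix.single a b i.1 a b = i.1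
    rw [Matrix.single_apply, if_pos ⟨rfl, rfl⟩]
  have : Fintype I := Fintype.ofFinite _
  have h1 := sum_hom f hf
  have h2 := congrArg (fun i : I => (i : R)) h1
  simp only [AddSubgroup.val_finsetSum, AddSubgroup.coe_nsmul] at h2
  have hker : Nat.card f.ker = Nat.card (entry I o a b).ker := by
    apply Nat.card_congr
    refine ⟨fun x => ⟨x.1, ?_⟩, fun x => ⟨x.1, ?_⟩, fun _ => rfl, fun _ => rfl⟩
    · have := x.2
      exact congrArg (fun i : I => (i : R)) this
    · have := x.2
      apply Subtype.ext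
      exact this
  rw [hker, card_ker_smul (c := b) hb (by intro h; exact ha (congrArg Prod.fst h))] at h2
  exact h2

theorem sum_entry_row {b : ι} (hb : b ≠ o) :
    ∑ x : X ι o I, x.1 o b = Nat.card (entry I o o b).ker • σ R :=
  sum_hom (entry I o o b) (entry_surj hb)

/-- the sum over the group -/
theorem group_sum (hI : SqZero I) (π : R →+ R) (ho : ∃ b : ι, b ≠ o)
    (hπ : ∀ b : ι, b ≠ o → ∀ r : R, π (Nat.card (entry I o o b).ker • (σ R * r)) = 0)
    (v : ι → R) (a : ι) : ∑ g : XG o I hI, π (act g v a) = 0 := by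
  obtain ⟨b0, hb0⟩ := ho
  have h1 : ∑ g : XG o I hI, act g v a = Nat.card (X ι o I) • v a
      + ∑ j, (∑ x : X ι o I, x.1 a j) * v j := by
    rw [← Equiv.sum_comp (XG.equiv o I hI).symm (fun g => act g v a)]
    have : ∀ x : X ι o I, act ((XG.equiv o I hI).symm x) v a = v a + ∑ j, x.1 a j * v j := by
      intro x
      rfl
    rw [Finset.sum_congr rfl (fun x _ => this x), Finset.sum_add_distrib, Finset.sum_const,
      Finset.card_univ, ← Nat.card_eq_fintype_card, Finset.sum_comm]
    congr 1
    apply Finset.sum_congr rfl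
    intro j _
    rw [Finset.sum_mul]
  rw [← map_sum, h1, card_X_smul hb0, zero_add, map_sum]
  apply Finset.sum_eq_zero
  intro j _
  by_cases hj : j = o
  · subst hj
    rw [sum_entry_zero_col, zero_mul, map_zero]
  · by_cases ha : a = o
    · subst ha
      rw [sum_entry_row hj, smul_mul_assoc]
      exact hπ j hj _
    · rw [sum_entry_inner ha hj, zero_mul, map_zero]

/-- general vanishing criterion -/
theorem vanish (hI : SqZero I) (π : R →+ R) (ho : ∃ b : ι, b ≠ o)
    (hπ : ∀ b : ι, b ≠ o → ∀ r : R, π (Nat.card (entry I o o b).ker • (σ R * r)) = 0)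
    (k : ℕ) (a : ι) : ∑ A : Matrix ι ι R, π (pw A k a o) = 0 :=
  col_sum hI π k (group_sum hI π ho hπ) a

end Group

/-! ### The vanishing cases -/

section Vanish

variable {R : Type} [NonUnitalRing R] [Fintype R]

theorem sqZero_bot : SqZero (⊥ : AddSubgroup R) := by
  constructor
  · intro r i hi
    rw [AddSubgroup.mem_bot] at hi ⊢
    rw [hi, mul_zero]
  · intro i hi j _
    rw [AddSubgroup.mem_bot] at hi
    rw [hi, zero_mul]

theorem S_apply (d k : ℕ) (a b : Fin d) :
    S R d k a b = ∑ A : Matrix (Fin d) (Fin d) R, pw A (k - 1) a b := by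
  classical
  unfold S
  rw [Matrix.sum_apply]

theorem exists_ne {d : ℕ} (hd : 1 < d) (o : Fin d) : ∃ b : Fin d, b ≠ o := by
  have : Nontrivial (Fin d) := Fin.nontrivial_iff_two_le.mpr hd
  exact _root_.exists_ne o

theorem S_zero_of_three {d : ℕ} (hd : 2 < d) (k : ℕ) : S R d k = 0 := by
  ext a o
  rw [S_apply]
  refine vanish (I := ⊥) (o := o) sqZero_bot (AddMonoidHom.id R) (exists_ne (by omega) o) ?_
    (k - 1) a
  intro b hb r
  obtain ⟨c, hc⟩ : ∃ c : Fin d, c ≠ o ∧ c ≠ b := by
    by_contra hcon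
    push Not at hcon
    have hsub : (Finset.univ : Finset (Fin d)) ⊆ {o, b} := by
      intro c _
      rw [Finset.mem_insert, Finset.mem_singleton]
      by_cases h : c = o
      · exact Or.inl h
      · exact Or.inr (hcon c h)
    have h1 := Finset.card_le_card hsub
    have h2 : ({o, b} : Finset (Fin d)).card ≤ 2 := Finset.card_le_two
    rw [Finset.card_univ, Fintype.card_fin] at h1
    omega
  rw [card_ker_smul (c := c) hc.1 (by intro h; exact hc.2 (congrArg Prod.snd h).symm), map_zero]

theorem S_zero_of_sigma {d : ℕ} (hd : 1 < d) (k : ℕ) (h : σ R = 0) : S R d k = 0 := by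
  ext a o
  rw [S_apply]
  refine vanish (I := ⊥) (o := o) sqZero_bot (AddMonoidHom.id R) (exists_ne hd o) ?_
    (k - 1) a
  intro b hb r
  rw [h, zero_mul, smul_zero, map_zero]

/-- the ideal of elements killed by two -/
def torsion (R : Type) [NonUnitalRing R] : AddSubgroup R where
  carrier := {x | x + x = 0}
  add_mem' := by
    intro x y hx hy
    simp only [Set.mem_ofPred_eq] at hx hy ⊢
    calc x + y + (x + y) = (x + x) + (y + y) := by abel
      _ = 0 := by rw [hx, hy, add_zero]
  zero_mem' := by simp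
  neg_mem' := by
    intro x hx
    simp only [Set.mem_ofPred_eq] at hx ⊢
    rw [← neg_add, hx, neg_zero]

theorem S_zero_of_sq {d : ℕ} (hd : 1 < d) (k : ℕ) (h0 : σ R ≠ 0) (h : σ R * σ R = 0) :
    S R d k = 0 := by
  have hI : SqZero (torsion R) := by
    constructor
    · intro r i hi
      show r * i + r * i = 0
      rw [← mul_add]
      have : i + i = 0 := hi
      rw [this, mul_zero]
    · intro i hi j hj
      rcases unique_of_sigma_ne h0 (z := i) hi with rfl | rfl
      · rw [zero_mul]
      · rcases unique_of_sigma_ne h0 (z := j) hj with rfl | rfl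
        · rw [mul_zero]
        · exact h
  ext a o
  rw [S_apply]
  refine vanish (I := torsion R) (o := o) hI (AddMonoidHom.id R) (exists_ne hd o) ?_ (k - 1) a
  intro b hb r
  have hker : Nat.card (entry (torsion R) o o b).ker • σ R = 0 := by
    have hs : Function.Surjective (fun x : (entry (torsion R) o o b).ker =>
        (⟨x.1.1 b b, x.1.2.2 b hb b⟩ : torsion R)) := by
      intro i
      refine ⟨⟨⟨Matrix.single b b i.1, single_mem' hb i.2⟩, ?_⟩, ?_⟩
      · show Matrix.single b b i.1 o b = 0
        rw [Matrix.single_apply, if_neg]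
        rintro ⟨h1, -⟩
        exact hb h1
      · apply Subtype.ext
        show Matrix.single b b i.1 b b = i.1
        rw [Matrix.single_apply, if_pos ⟨rfl, rfl⟩]
    let f : (entry (torsion R) o o b).ker →+ torsion R :=
      { toFun := fun x => ⟨x.1.1 b b, x.1.2.2 b hb b⟩
        map_zero' := rfl
        map_add' := fun _ _ => rfl }
    obtain ⟨m, hm⟩ := AddSubgroup.card_dvd_of_surjective f hs
    have hσ : σ R ∈ torsion R := two_sigma
    have h1 : Nat.card (torsion R) • (⟨σ R, hσ⟩ : torsion R) = 0 := by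
      have : Fintype (torsion R) := Fintype.ofFinite _
      rw [Nat.card_eq_fintype_card, card_nsmul_eq_zero]
    have h2 : Nat.card (torsion R) • σ R = 0 := congrArg (fun i : torsion R => (i : R)) h1
    rw [hm, mul_comm, mul_smul, h2, smul_zero]
  rw [← smul_mul_assoc, hker, zero_mul, map_zero]

end Vanish

/-! ### The exceptional case -/

section Except

variable {R : Type} [NonUnitalRing R] [Fintype R]

/-- in the idempotent case `S = e S` -/
theorem S_eq_mul {d : ℕ} (hd : 1 < d) (k : ℕ) (h : σ R * σ R = σ R) (a o : Fin d) :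
    S R d k a o = ∑ A : Matrix (Fin d) (Fin d) R, σ R * pw A (k - 1) a o := by
  let π : R →+ R :=
    { toFun := fun r => r - σ R * r
      map_zero' := by simp
      map_add' := by intro x y; rw [mul_add]; abel }
  have h1 := vanish (I := ⊥) (o := o) sqZero_bot π (exists_ne hd o) (by
    intro b _ r
    rw [map_nsmul]
    have : π (σ R * r) = 0 := by
      show σ R * r - σ R * (σ R * r) = 0
      rw [← mul_assoc, h, sub_self]
    rw [this, smul_zero]) (k - 1) a
  have h2 : ∀ A : Matrix (Fin d) (Fin d) R, π (pw A (k - 1) a o)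
      = pw A (k - 1) a o - σ R * pw A (k - 1) a o := fun _ => rfl
  rw [Finset.sum_congr rfl (fun A _ => h2 A), Finset.sum_sub_distrib, sub_eq_zero] at h1
  rw [S_apply, h1]

open Classical in
/-- `r ↦ [e r ≠ 0]` -/
noncomputable def f (r : R) : ZMod 2 := if σ R * r = 0 then 0 else 1

/-- `x ↦ x e` -/
noncomputable def j (x : ZMod 2) : R := if x = 0 then 0 else σ R

theorem j_f (h0 : σ R ≠ 0) (r : R) : j (f r) = σ R * r := by
  unfold f j
  have h2 : σ R * r + σ R * r = 0 := by rw [← add_mul, two_sigma, zero_mul]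
  rcases unique_of_sigma_ne h0 h2 with h | h
  · rw [if_pos h, if_pos rfl, h]
  · rw [if_neg (show ¬ σ R * r = 0 by rw [h]; exact h0), if_neg (by decide), h]

theorem j_inj (h0 : σ R ≠ 0) : Function.Injective (j : ZMod 2 → R) := by
  intro x y h
  have key : ∀ x : ZMod 2, x = 0 ∨ x = 1 := by decide
  unfold j at h
  rcases key x with rfl | rfl <;> rcases key y with rfl | rfl
  · rfl
  · rw [if_pos rfl, if_neg (by decide)] at h
    exact absurd h.symm h0
  · rw [if_pos rfl, if_neg (by decide)] at h
    exact absurd h h0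
  · rfl

theorem j_add (x y : ZMod 2) : (j (x + y) : R) = j x + j y := by
  have key : ∀ x : ZMod 2, x = 0 ∨ x = 1 := by decide
  unfold j
  rcases key x with rfl | rfl <;> rcases key y with rfl | rfl
  · simp
  · simp
  · simp
  · rw [if_pos (by decide), if_neg (by decide), two_sigma]

/-- `j` as an additive homomorphism -/
noncomputable def jHom (R : Type) [NonUnitalRing R] [Fintype R] : ZMod 2 →+ R where
  toFun := j
  map_zero' := by unfold j; simp
  map_add' := j_add

theorem j_sum {α : Type} [Fintype α] (g : α → ZMod 2) : (j (∑ x, g x) : R) = ∑ x, j (g x) :=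
  map_sum (jHom R) g Finset.univ

theorem e_comm (h0 : σ R ≠ 0) (h : σ R * σ R = σ R) (r : R) : σ R * r = r * σ R := by
  have h1 : σ R * r + σ R * r = 0 := by rw [← add_mul, two_sigma, zero_mul]
  have h2 : r * σ R + r * σ R = 0 := by rw [← mul_add, two_sigma, mul_zero]
  rcases unique_of_sigma_ne h0 h1 with h3 | h3 <;> rcases unique_of_sigma_ne h0 h2 with h4 | h4
  · rw [h3, h4]
  · exfalso
    have : σ R * r * σ R = σ R := by rw [mul_assoc, h4, h]
    rw [h3, zero_mul] at this
    exact h0 this.symm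
  · exfalso
    have : σ R * r * σ R = σ R := by rw [h3, h]
    rw [mul_assoc, h4, mul_zero] at this
    exact h0 this.symm
  · rw [h3, h4]

theorem f_add (h0 : σ R ≠ 0) (x y : R) : f (x + y) = f x + f y := by
  apply j_inj h0
  rw [j_f h0, j_add, j_f h0, j_f h0, mul_add]

theorem j_mul (h : σ R * σ R = σ R) (x y : ZMod 2) : (j (x * y) : R) = j x * j y := by
  have key : ∀ x : ZMod 2, x = 0 ∨ x = 1 := by decide
  unfold j
  rcases key x with rfl | rfl <;> rcases key y with rfl | rfl
  · simp
  · simp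
  · simp
  · rw [if_neg (by decide), if_neg (by decide), h]

theorem f_mul (h0 : σ R ≠ 0) (h : σ R * σ R = σ R) (x y : R) : f (x * y) = f x * f y := by
  apply j_inj h0
  rw [j_f h0, j_mul h, j_f h0, j_f h0]
  calc σ R * (x * y) = (σ R * σ R) * x * y := by rw [h, mul_assoc]
    _ = σ R * (σ R * x) * y := by rw [mul_assoc (σ R)]
    _ = σ R * (x * σ R) * y := by rw [e_comm h0 h x]
    _ = σ R * x * (σ R * y) := by simp only [mul_assoc]

/-- `f` as a ring homomorphism -/
noncomputable def fHom (h0 : σ R ≠ 0) (h : σ R * σ R = σ R) : R →ₙ+* ZMod 2 where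
  toFun := f
  map_mul' := f_mul h0 h
  map_zero' := by unfold f; simp
  map_add' := f_add h0

theorem f_sigma (h0 : σ R ≠ 0) (h : σ R * σ R = σ R) : f (σ R) = 1 := by
  unfold f
  rw [h, if_neg h0]

theorem pw_map {ι : Type} [Fintype ι] {R' : Type} [NonUnitalRing R'] (g : R →ₙ+* R')
    (A : Matrix ι ι R) (k : ℕ) : (pw A k).map g = pw (A.map g) k := by
  induction k with
  | zero => rfl
  | succ k ih =>
    show (A * pw A k).map g = A.map g * pw (A.map g) k
    rw [← ih]
    ext a b
    simp [Matrix.mul_apply, map_sum]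

/-- the additive map on matrices -/
noncomputable def fMat (d : ℕ) (h0 : σ R ≠ 0) (h : σ R * σ R = σ R) :
    Matrix (Fin d) (Fin d) R →+ Matrix (Fin d) (Fin d) (ZMod 2) where
  toFun A := A.map (fHom h0 h)
  map_zero' := by ext a b; simp
  map_add' A B := by ext a b; simp

theorem fMat_surj (d : ℕ) (h0 : σ R ≠ 0) (h : σ R * σ R = σ R) :
    Function.Surjective (fMat d h0 h) := by
  intro B
  refine ⟨B.map (fun x => j x), ?_⟩
  ext a b
  show f (j (B a b)) = B a b
  have key : ∀ x : ZMod 2, x = 0 ∨ x = 1 := by decide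
  rcases key (B a b) with h1 | h1
  · rw [h1]; unfold j f; simp
  · rw [h1]
    have : (j (1 : ZMod 2) : R) = σ R := by unfold j; rw [if_neg (by decide)]
    rw [this, f_sigma h0 h]

theorem fMat_ker_odd (d : ℕ) (h0 : σ R ≠ 0) (h : σ R * σ R = σ R) :
    Nat.card (fMat d h0 h).ker % 2 = 1 := by
  classical
  by_contra hcon
  have h2 : 2 ∣ Fintype.card (fMat d h0 h).ker := by
    rw [← Nat.card_eq_fintype_card]
    omega
  obtain ⟨z, hz, hz2⟩ := exists_torsion h2
  apply hz
  apply Subtype.ext
  ext a b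
  have h3 : z.1 a b + z.1 a b = 0 := by
    have := congrArg (fun y : (fMat d h0 h).ker => y.1 a b) hz2
    exact this
  rcases unique_of_sigma_ne h0 h3 with h4 | h4
  · exact h4
  · exfalso
    have h5 : fMat d h0 h z.1 = 0 := z.2
    have h6 := congrFun (congrFun h5 a) b
    have h7 : f (z.1 a b) = 0 := h6
    rw [h4, f_sigma h0 h] at h7
    exact absurd h7 (by decide)

theorem card_mod_four (h0 : σ R ≠ 0) (h : σ R * σ R = σ R) : Fintype.card R % 4 = 2 := by
  classical
  -- the kernel of `f` has odd order and index two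
  let g : R →+ ZMod 2 := (fHom h0 h : R →ₙ+* ZMod 2).toAddMonoidHom
  have hg : ∀ r, g r = f r := fun _ => rfl
  have hsurj : Function.Surjective g := by
    intro x
    have key : ∀ x : ZMod 2, x = 0 ∨ x = 1 := by decide
    rcases key x with rfl | rfl
    · exact ⟨0, map_zero g⟩
    · exact ⟨σ R, by rw [hg, f_sigma h0 h]⟩
  have hodd : Nat.card g.ker % 2 = 1 := by
    by_contra hcon
    have h2 : 2 ∣ Fintype.card g.ker := by
      rw [← Nat.card_eq_fintype_card]
      omega
    obtain ⟨z, hz, hz2⟩ := exists_torsion h2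
    apply hz
    apply Subtype.ext
    have h3 : z.1 + z.1 = 0 := congrArg (fun y : g.ker => y.1) hz2
    rcases unique_of_sigma_ne h0 h3 with h4 | h4
    · exact h4
    · exfalso
      have h5 : g z.1 = 0 := z.2
      rw [hg, h4, f_sigma h0 h] at h5
      exact absurd h5 (by decide)
  have hcard : Nat.card R = Nat.card g.ker * 2 := by
    have h1 := AddSubgroup.card_mul_index g.ker
    have h2 : g.ker.index = 2 := by
      rw [AddSubgroup.index_ker, AddMonoidHom.range_eq_top.mpr hsurj, AddSubgroup.card_top,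
        Nat.card_zmod]
    rw [← h1, h2]
  rw [← Nat.card_eq_fintype_card, hcard]
  omega

/-- sum over `M_2(𝔽₂)` -/
theorem F2_period (k : ℕ) : ∑ B : Matrix (Fin 2) (Fin 2) (ZMod 2), pw B k
    = if 0 < k ∧ ((k + 1) % 6 = 5 ∨ (k + 1) % 6 = 0 ∨ (k + 1) % 6 = 1) then 1 else 0 := by
  have hper : ∀ B : Matrix (Fin 2) (Fin 2) (ZMod 2), ∀ k, pw B (k + 7) = pw B (k + 1) := by
    intro B k
    induction k with
    | zero => revert B; decide +kernel
    | succ k ih =>
      show B * pw B (k + 7) = B * pw B (k + 1)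
      rw [ih]
  have hmain : ∀ k, ∑ B : Matrix (Fin 2) (Fin 2) (ZMod 2), pw B (k + 1)
      = if ((k + 2) % 6 = 5 ∨ (k + 2) % 6 = 0 ∨ (k + 2) % 6 = 1) then 1 else 0 := by
    intro k
    induction k using Nat.strong_induction_on with
    | _ k ih =>
      by_cases hk : k < 6
      · interval_cases k <;> decide +kernel
      · obtain ⟨m, rfl⟩ : ∃ m, k = m + 6 := ⟨k - 6, by omega⟩
        rw [Finset.sum_congr rfl (fun B _ => hper B m), ih m (by omega)]
        have : (m + 6 + 2) % 6 = (m + 2) % 6 := by omega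
        rw [this]
  cases k with
  | zero =>
    rw [if_neg (by omega)]
    decide +kernel
  | succ k =>
    rw [hmain k]
    by_cases h : ((k + 2) % 6 = 5 ∨ (k + 2) % 6 = 0 ∨ (k + 2) % 6 = 1)
    · rw [if_pos h, if_pos ⟨by omega, h⟩]
    · rw [if_neg h, if_neg (by rintro ⟨-, h'⟩; exact h h')]

theorem S_two (h0 : σ R ≠ 0) (h : σ R * σ R = σ R) (k : ℕ) (hk : 1 ≤ k) :
    S R 2 k = if 1 < k ∧ (k % 6 = 5 ∨ k % 6 = 0 ∨ k % 6 = 1)
      then Matrix.diagonal (fun _ => σ R) else 0 := by
  classical
  obtain ⟨k, rfl⟩ : ∃ m, k = m + 1 := ⟨k - 1, by omega⟩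
  ext a o
  rw [S_eq_mul (by norm_num) (k + 1) h a o, Nat.add_sub_cancel]
  have h1 : ∀ A : Matrix (Fin 2) (Fin 2) R, σ R * pw A k a o
      = j (pw (fMat 2 h0 h A) k a o) := by
    intro A
    rw [← j_f h0]
    congr 1
    have := pw_map (fHom h0 h) A k
    exact congrFun (congrFun this a) o
  rw [Finset.sum_congr rfl (fun A _ => h1 A)]
  have h2 := Finset.sum_comp (s := (Finset.univ : Finset (Matrix (Fin 2) (Fin 2) R)))
    (fun B : Matrix (Fin 2) (Fin 2) (ZMod 2) => (j (pw B k a o) : R)) (fMat 2 h0 h)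
  rw [Finset.image_univ_of_surjective (fMat_surj 2 h0 h)] at h2
  have h3 : ∀ B : Matrix (Fin 2) (Fin 2) (ZMod 2),
      (Finset.univ.filter (fun A : Matrix (Fin 2) (Fin 2) R => fMat 2 h0 h A = B)).card
        • (j (pw B k a o) : R) = j (pw B k a o) := by
    intro B
    have e1 : (Finset.univ.filter (fun A : Matrix (Fin 2) (Fin 2) R => fMat 2 h0 h A = B)).card
        = Nat.card (fMat 2 h0 h).ker := by
      rw [AddMonoidHom.card_fiber_eq_of_mem_range (fMat 2 h0 h)
        (Set.mem_range.mpr (fMat_surj 2 h0 h B)) (Set.mem_range.mpr (fMat_surj 2 h0 h 0))]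
      rw [Nat.card_eq_fintype_card]
      exact (Fintype.card_subtype _).symm.trans (Fintype.card_congr (Equiv.refl _))
    have e2 : (j (pw B k a o) : R) + j (pw B k a o) = 0 := by
      rw [← j_add]
      have key : ∀ x : ZMod 2, x + x = 0 := by decide
      rw [key]
      unfold j
      simp
    rw [e1, nsmul_torsion e2, if_pos (fMat_ker_odd 2 h0 h)]
  have h4 : ∑ A : Matrix (Fin 2) (Fin 2) R, (j (pw (fMat 2 h0 h A) k a o) : R)
      = ∑ B : Matrix (Fin 2) (Fin 2) (ZMod 2), (j (pw B k a o) : R) := by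
    refine Eq.trans h2 ?_
    exact Finset.sum_congr rfl (fun B _ => h3 B)
  rw [h4]
  have h5 : ∑ B : Matrix (Fin 2) (Fin 2) (ZMod 2), (j (pw B k a o) : R)
      = j ((∑ B : Matrix (Fin 2) (Fin 2) (ZMod 2), pw B k) a o) := by
    rw [Matrix.sum_apply]
    exact (j_sum _).symm
  rw [h5, F2_period]
  have hj0 : (j (0 : ZMod 2) : R) = 0 := by unfold j; simp
  have hj1 : (j (1 : ZMod 2) : R) = σ R := by unfold j; rw [if_neg (by decide)]
  by_cases hc : 0 < k ∧ ((k + 1) % 6 = 5 ∨ (k + 1) % 6 = 0 ∨ (k + 1) % 6 = 1)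
  · rw [if_pos hc, if_pos ⟨by omega, hc.2⟩]
    by_cases hao : a = o
    · subst hao
      rw [Matrix.one_apply_eq, Matrix.diagonal_apply_eq, hj1]
    · rw [Matrix.one_apply_ne hao, Matrix.diagonal_apply_ne _ hao, hj0]
  · rw [if_neg hc, if_neg (by rintro ⟨h6, h7⟩; exact hc ⟨by omega, h7⟩)]
    exact hj0

end Except

/-- **MP_0bd9b3_al, Q1 holds.**  For every finite ring `R` (associative, not necessarily
commutative or unital), `d > 1` and `k ≥ 1`: if conditions 1-3 fail then `S_k^d(R) = 0`; if they
hold then there is exactly one `e ≠ 0` in `R` with `2e = 0`, and `S_k^d(R) = diag(e, …, e)` (here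
`d = 2`). -/
theorem result (R : Type) [NonUnitalRing R] [Fintype R] (d k : ℕ) (hd : 1 < d) (hk : 1 ≤ k) :
    (¬ Conditions R d k → S R d k = 0) ∧
    (Conditions R d k → (∃! e : R, e ≠ 0 ∧ e + e = 0) ∧
      ∀ e : R, e ≠ 0 → e + e = 0 → S R d k = Matrix.diagonal (fun _ => e)) := by
  by_cases h0 : σ R = 0
  · refine ⟨fun _ => S_zero_of_sigma hd k h0, ?_⟩
    rintro ⟨_, ⟨h4, _⟩, _⟩
    exfalso
    obtain ⟨z, hz, hz2⟩ := exists_torsion (R := R) (by omega)
    exact hz ((sigma_of_card h4 hz hz2).symm.trans h0)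
  have h2 : (σ R * σ R) + (σ R * σ R) = 0 := by rw [← mul_add, two_sigma, mul_zero]
  rcases unique_of_sigma_ne h0 h2 with hsq | hsq
  · refine ⟨fun _ => S_zero_of_sq hd k h0 hsq, ?_⟩
    rintro ⟨_, _, h3⟩
    exfalso
    have := h3 (σ R) h0 two_sigma
    rw [hsq] at this
    exact h0 this.symm
  · constructor
    · intro hC
      by_cases hd2 : d = 2
      · subst hd2
        rw [S_two h0 hsq k hk, if_neg]
        intro hk2
        apply hC
        refine ⟨rfl, ⟨card_mod_four h0 hsq, hk2.1, hk2.2⟩, ?_⟩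
        intro e he he2
        rcases unique_of_sigma_ne h0 he2 with rfl | rfl
        · exact absurd rfl he
        · exact hsq
      · exact S_zero_of_three (by omega) k
    · rintro ⟨rfl, ⟨_, h5⟩, _⟩
      refine ⟨⟨σ R, ⟨h0, two_sigma⟩, ?_⟩, ?_⟩
      · rintro y ⟨hy, hy2⟩
        rcases unique_of_sigma_ne h0 hy2 with h6 | h6
        · exact absurd h6 hy
        · exact h6
      · intro e he he2
        rcases unique_of_sigma_ne h0 he2 with h6 | h6
        · exact absurd h6 he
        · rw [S_two h0 hsq k hk, if_pos h5, h6]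

end Pool.Agent.Results.MP_0bd9b3_al.MatrixPowerSums
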